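import Pool.Agent.W2helper57.LD.Stm

/-!
# Project LD, piece BLK: six disjoint blocks exist
-/

set_option autoImplicit false

open Pool.Agent.W2helper57.LD

namespace Pool.Agent.W2helper56.LD.BLK

theorem main : S_BLK := by
  intro n v N hn r
  have hc : Fintype.card (Fin 3 × Fin 2 × Fin (v + 1) × Fin N) ≤
      Fintype.card {x : Fin n // x ≠ r} := by
    rw [Fintype.card_prod, Fintype.card_prod, Fintype.card_prod, Fintype.card_fin,
      Fintype.card_fin, Fintype.card_fin, Fintype.card_fin, Fintype.card_subtype_compl,
      Fintype.card_fin, Fintype.card_subtype_eq]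
    have h1 : 3 * (2 * ((v + 1) * N)) = 6 * ((v + 1) * N) := by ring
    omega
  obtain ⟨f⟩ := Function.Embedding.nonempty_of_card_le hc
  refine ⟨fun j l i m => (f (j, l, i, m) : Fin n), ?_, ?_⟩
  · intro j l i m j' l' i' m' h
    have h1 := f.injective (Subtype.ext h)
    simp only [Prod.mk.injEq] at h1
    exact h1
  · intro j l i m
    exact (f (j, l, i, m)).2

end Pool.Agent.W2helper56.LD.BLK
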